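import Pool.Agent.P8H92.KB.Stm2
import Pool.Agent.P8H55.KB.Min

set_option autoImplicit false

/-!
# Project KB, second part, package MINB: a coupling by minimisation, many blocks with a common `l`
-/

namespace Pool.Agent.P8H53.KC

open Finset Real Filter Topology
open Pool.Agent.P8H92.KB
open Pool.Agent.P8H55.KB (ZZ vv cpl_pos ZZ_pos star)

section single

variable {k : ℕ} {A : Type} [Fintype A] (x : A → EuclideanSpace ℝ (Fin k)) (ν : A → ℝ)

/-- the directional derivative of the partition function -/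
theorem deriv_ZZ (f h : A → ℝ) (l m : ℝ) :
    HasDerivAt (fun t : ℝ => ZZ x ν (fun a => f a + t * h a) (l + t * m))
      (∑ a, ∑ b, cpl x ν l f a b * (m * inner ℝ (x a) (x b) + h a + h b)) 0 := by
  have e1 : ∀ (a b : A) (t : ℝ), cpl x ν (l + t * m) (fun a => f a + t * h a) a b =
      cpl x ν l f a b * rexp (t * (m * inner ℝ (x a) (x b) + h a + h b)) := by
    intro a b t
    unfold cpl
    rw [mul_assoc (ν a * ν b), ← Real.exp_add]
    congr 2
    ring
  have d1 : ∀ a b : A, HasDerivAt (fun t : ℝ => cpl x ν (l + t * m) (fun a => f a + t * h a) a b)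
      (cpl x ν l f a b * (m * inner ℝ (x a) (x b) + h a + h b)) 0 := by
    intro a b
    simp_rw [e1]
    have h1 := (((hasDerivAt_id (0 : ℝ)).mul_const
      (m * inner ℝ (x a) (x b) + h a + h b)).exp).const_mul (cpl x ν l f a b)
    exact h1.congr_deriv (by simp)
  unfold ZZ
  exact HasDerivAt.fun_sum fun a _ => HasDerivAt.fun_sum fun b _ => d1 a b

/-- the lower bound of the partition function -/
theorem star' (h : S_KER) [Nonempty A] (hν : ∀ a, 0 < ν a) (hsum : ∑ a, ν a = 1) {l t : ℝ}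
    (hl : 0 ≤ l) (ht0 : 0 ≤ t) (ht1 : t < 1) (f : A → ℝ) :
    1 + l * t * vv x ν + (k : ℝ) / 2 * Real.log (1 - t ^ 2) ≤
      ZZ x ν f l - 2 * ∑ a, ν a * f a := by
  have h1 := star x ν h hν hsum hl ht0 ht1 f
  have h2 := Real.add_one_le_exp (Real.log (ZZ x ν f l))
  rw [Real.exp_log (ZZ_pos x ν hν f l)] at h2
  linarith

theorem elem {y F : ℝ} (hy : 0 ≤ y) : 2 * (y * |F|) - 2 ≤ y * y * rexp (2 * F) - 2 * (y * F) := by
  rcases le_total F 0 with h | h
  · rw [abs_of_nonpos h]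
    have := mul_nonneg (mul_nonneg hy hy) (Real.exp_pos (2 * F)).le
    linarith
  · rw [abs_of_nonneg h]
    have h1 : 1 + 2 * F + (2 * F) ^ 2 / 2 ≤ rexp (2 * F) :=
      Real.quadratic_le_exp_of_nonneg (by linarith)
    have h2 : 2 * F ^ 2 ≤ rexp (2 * F) := by nlinarith
    have h3 : y * y * (2 * F ^ 2) ≤ y * y * rexp (2 * F) :=
      mul_le_mul_of_nonneg_left h2 (mul_nonneg hy hy)
    nlinarith [sq_nonneg (y * F - 1)]

theorem diag' (hν : ∀ a, 0 < ν a) {l : ℝ} (hl : 0 ≤ l) (f : A → ℝ) :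
    ∑ a, (2 * (ν a * |f a|) - 2) ≤ ZZ x ν f l - 2 * ∑ a, ν a * f a := by
  have h1 : ∑ a, ν a * ν a * rexp (2 * f a) ≤ ZZ x ν f l := by
    unfold ZZ
    refine sum_le_sum fun a _ => le_trans ?_ (single_le_sum (f := fun b => cpl x ν l f a b)
      (fun b _ => (cpl_pos x ν hν l f a b).le) (mem_univ a))
    unfold cpl
    have h2 : 0 ≤ l * inner ℝ (x a) (x a) := mul_nonneg hl real_inner_self_nonneg
    exact mul_le_mul_of_nonneg_left (Real.exp_le_exp.2 (by linarith))
      (mul_nonneg (hν a).le (hν a).le)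
  calc ∑ a, (2 * (ν a * |f a|) - 2) ≤ ∑ a, (ν a * ν a * rexp (2 * f a) - 2 * (ν a * f a)) :=
        sum_le_sum fun a _ => elem (hν a).le
    _ = ∑ a, ν a * ν a * rexp (2 * f a) - 2 * ∑ a, ν a * f a := by
        rw [sum_sub_distrib, ← mul_sum]
    _ ≤ _ := by linarith

end single

section

variable {ι : Type} [Fintype ι] {k : ι → ℕ} {A : ι → Type} [∀ i, Fintype (A i)]
  (x : ∀ i, A i → EuclideanSpace ℝ (Fin (k i))) (ν : ∀ i, A i → ℝ)

/-- the functional -/
noncomputable def Phi (s : ℝ) (f : ∀ i, A i → ℝ) (l : ℝ) : ℝ :=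
  ∑ i, (ZZ (x i) (ν i) (f i) l - 2 * ∑ a, ν i a * f i a) - l * (s * vB x ν)

theorem vB_eq : vB x ν = ∑ i, vv (x i) (ν i) := rfl

theorem Phi_ge (h : S_KER) [∀ i, Nonempty (A i)] (hν : ∀ i a, 0 < ν i a)
    (hsum : ∀ i, ∑ a, ν i a = 1) (s : ℝ) {l t : ℝ}
    (hl : 0 ≤ l) (ht0 : 0 ≤ t) (ht1 : t < 1) (f : ∀ i, A i → ℝ) :
    (Fintype.card ι : ℝ) + l * ((t - s) * vB x ν) +
      ((∑ i, k i : ℕ) : ℝ) / 2 * Real.log (1 - t ^ 2) ≤ Phi x ν s f l := by
  have h1 : ∑ i, (1 + l * t * vv (x i) (ν i) + (k i : ℝ) / 2 * Real.log (1 - t ^ 2)) ≤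
      ∑ i, (ZZ (x i) (ν i) (f i) l - 2 * ∑ a, ν i a * f i a) :=
    sum_le_sum fun i _ => star' (x i) (ν i) h (hν i) (hsum i) hl ht0 ht1 (f i)
  rw [sum_add_distrib, sum_add_distrib, ← mul_sum, ← sum_mul, ← sum_div, ← vB_eq, sum_const,
    card_univ, nsmul_eq_mul, mul_one, ← Nat.cast_sum] at h1
  unfold Phi
  linarith

theorem Phi_zero (hsum : ∀ i, ∑ a, ν i a = 1) (s : ℝ) :
    Phi x ν s (fun _ _ => 0) 0 = (Fintype.card ι : ℝ) := by
  have h1 : ∀ i, ZZ (x i) (ν i) (fun _ => 0) 0 = 1 := by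
    intro i
    unfold ZZ cpl
    simp only [zero_mul, add_zero, Real.exp_zero, mul_one]
    rw [← Finset.sum_mul_sum, hsum, one_mul]
  unfold Phi
  simp [h1]

theorem Phi_cont (s : ℝ) :
    Continuous (fun p : (∀ i, A i → ℝ) × ℝ => Phi x ν s p.1 p.2) := by
  unfold Phi ZZ cpl
  fun_prop

/-- the minimum -/
theorem exists_min (h : S_KER) [∀ i, Nonempty (A i)] (hν : ∀ i a, 0 < ν i a)
    (hsum : ∀ i, ∑ a, ν i a = 1) (hv : 0 < vB x ν) {s : ℝ} (hs0 : 0 ≤ s) (hs1 : s < 1) :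
    ∃ (f : ∀ i, A i → ℝ) (l : ℝ), 0 ≤ l ∧
      ∀ (g : ∀ i, A i → ℝ) (m : ℝ), 0 ≤ m → Phi x ν s f l ≤ Phi x ν s g m := by
  classical
  obtain ⟨t, ht⟩ : ∃ t, t = (1 + s) / 2 := ⟨_, rfl⟩
  have ht0 : 0 ≤ t := by rw [ht]; linarith
  have ht1 : t < 1 := by rw [ht]; linarith
  have hts : 0 < t - s := by rw [ht]; linarith
  obtain ⟨L, hL⟩ : ∃ L, L = ((∑ i, k i : ℕ) : ℝ) / 2 * Real.log (1 - t ^ 2) := ⟨_, rfl⟩
  obtain ⟨Λ, hΛ⟩ : ∃ Λ, Λ = |L| / ((t - s) * vB x ν) := ⟨_, rfl⟩
  have hΛ0 : 0 ≤ Λ := by rw [hΛ]; positivity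
  obtain ⟨B, hB⟩ : ∃ B, B = (Fintype.card ι : ℝ) + 2 * ∑ i, (Fintype.card (A i) : ℝ) +
    Λ * (s * vB x ν) := ⟨_, rfl⟩
  have hB0 : 0 ≤ B := by rw [hB]; positivity
  -- the a priori bounds
  have hbd : ∀ (f : ∀ i, A i → ℝ) (l : ℝ), 0 ≤ l → Phi x ν s f l ≤ (Fintype.card ι : ℝ) →
      l ≤ Λ ∧ ∀ i a, |f i a| ≤ B / (2 * ν i a) := by
    intro f l hl hP
    have h1 := Phi_ge x ν h hν hsum s hl ht0 ht1 f
    rw [← hL] at h1
    have hlΛ : l ≤ Λ := by
      rw [hΛ, le_div_iff₀ (by positivity)]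
      have := neg_abs_le L
      linarith
    refine ⟨hlΛ, fun i a => ?_⟩
    have h2 : ∑ i, ∑ a, (2 * (ν i a * |f i a|) - 2) ≤
        ∑ i, (ZZ (x i) (ν i) (f i) l - 2 * ∑ a, ν i a * f i a) :=
      sum_le_sum fun i _ => diag' (x i) (ν i) (hν i) hl (f i)
    have h3 : ∑ i, ∑ a, (2 * (ν i a * |f i a|) - 2) =
        ∑ i, ∑ a, 2 * (ν i a * |f i a|) - 2 * ∑ i, (Fintype.card (A i) : ℝ) := by
      rw [mul_sum, ← sum_sub_distrib]
      refine sum_congr rfl fun i _ => ?_
      rw [sum_sub_distrib, sum_const, card_univ, nsmul_eq_mul, mul_comm (2 : ℝ)]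
    have h4 : l * (s * vB x ν) ≤ Λ * (s * vB x ν) :=
      mul_le_mul_of_nonneg_right hlΛ (by positivity)
    unfold Phi at hP
    have h5 : ∑ i, ∑ a, 2 * (ν i a * |f i a|) ≤ B := by
      rw [hB]
      linarith
    have hn : ∀ i a, 0 ≤ 2 * (ν i a * |f i a|) := fun i a =>
      mul_nonneg zero_le_two (mul_nonneg (hν i a).le (abs_nonneg _))
    have h6 : 2 * (ν i a * |f i a|) ≤ B :=
      le_trans (single_le_sum (f := fun a => 2 * (ν i a * |f i a|)) (fun a _ => hn i a)
        (mem_univ a)) (le_trans (single_le_sum (f := fun i => ∑ a, 2 * (ν i a * |f i a|))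
          (fun i _ => sum_nonneg fun a _ => hn i a) (mem_univ i)) h5)
    rw [le_div_iff₀ (by have := hν i a; positivity)]
    linarith
  -- the compact set
  obtain ⟨K, hK⟩ : ∃ K : Set ((∀ i, A i → ℝ) × ℝ), K = Set.Icc (fun i a => -(B / (2 * ν i a)))
    (fun i a => B / (2 * ν i a)) ×ˢ Set.Icc 0 Λ := ⟨_, rfl⟩
  have hKc : IsCompact K := by
    rw [hK]
    exact isCompact_Icc.prod isCompact_Icc
  have hbox : ∀ i a, 0 ≤ B / (2 * ν i a) := fun i a => div_nonneg hB0 (by
    have := hν i a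
    positivity)
  have h0K : ((fun _ _ => 0, 0) : (∀ i, A i → ℝ) × ℝ) ∈ K := by
    rw [hK]
    refine ⟨⟨fun i a => ?_, fun i a => ?_⟩, ⟨le_rfl, hΛ0⟩⟩
    · simpa using hbox i a
    · exact hbox i a
  obtain ⟨⟨f, l⟩, hfl, hmin⟩ := hKc.exists_isMinOn ⟨_, h0K⟩ (Phi_cont x ν s).continuousOn
  have hfl' := hfl
  rw [hK] at hfl'
  obtain ⟨_, ⟨hl0, _⟩⟩ := hfl'
  have hmin' : ∀ p ∈ K, Phi x ν s f l ≤ Phi x ν s p.1 p.2 := fun p hp => hmin hp
  have hle0 : Phi x ν s f l ≤ (Fintype.card ι : ℝ) := by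
    have := hmin' _ h0K
    rwa [Phi_zero x ν hsum s] at this
  refine ⟨f, l, hl0, fun g m hm => ?_⟩
  by_cases hP : Phi x ν s g m ≤ (Fintype.card ι : ℝ)
  · obtain ⟨h1, h2⟩ := hbd _ _ hm hP
    refine hmin' (g, m) ?_
    rw [hK]
    exact ⟨⟨fun i a => (abs_le.1 (h2 i a)).1, fun i a => (abs_le.1 (h2 i a)).2⟩, ⟨hm, h1⟩⟩
  · exact hle0.trans (not_le.1 hP).le

end

theorem minB (h : S_KER) : S_MINB := by
  classical
  intro ι _ k A _ x ν hν hsum hv s hs0 hs1
  have : ∀ i, Nonempty (A i) := by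
    intro i
    by_contra hne
    rw [not_nonempty_iff] at hne
    have := hsum i
    simp at this
  obtain ⟨f, l, hl, hmin⟩ := exists_min x ν h hν hsum hv hs0 hs1
  have hsym : ∀ i a b, cpl (x i) (ν i) l (f i) a b = cpl (x i) (ν i) l (f i) b a := by
    intro i a b
    unfold cpl
    rw [real_inner_comm, mul_comm (ν i a)]
    congr 2
    ring
  -- every block is minimal
  have hblock : ∀ (i : ι) (g : A i → ℝ), ZZ (x i) (ν i) (f i) l - 2 * ∑ a, ν i a * f i a ≤
      ZZ (x i) (ν i) g l - 2 * ∑ a, ν i a * g a := by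
    intro i g
    have h1 := hmin (Function.update f i g) l hl
    unfold Phi at h1
    rw [← add_sum_erase univ _ (mem_univ i), ← add_sum_erase univ (fun j =>
      (ZZ (x j) (ν j) (Function.update f i g j) l - 2 * ∑ a, ν j a * Function.update f i g j a))
      (mem_univ i)] at h1
    have h2 : ∑ j ∈ univ.erase i, (ZZ (x j) (ν j) (Function.update f i g j) l -
        2 * ∑ a, ν j a * Function.update f i g j a) =
        ∑ j ∈ univ.erase i, (ZZ (x j) (ν j) (f j) l - 2 * ∑ a, ν j a * f j a) := by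
      refine sum_congr rfl fun j hj => ?_
      rw [Function.update_of_ne (ne_of_mem_erase hj)]
    rw [h2, Function.update_self] at h1
    linarith
  -- the marginals
  have hmarg : ∀ i a, ∑ b, cpl (x i) (ν i) l (f i) a b = ν i a := by
    intro i a
    obtain ⟨e, he⟩ : ∃ e : A i → ℝ, e = fun b => if b = a then 1 else 0 := ⟨_, rfl⟩
    have hd := deriv_ZZ (x i) (ν i) (f i) e l 0
    have hd2 : HasDerivAt (fun t : ℝ => 2 * ∑ b, ν i b * (f i b + t * e b))
        (2 * ∑ b, ν i b * e b) 0 := by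
      have e2 : ∀ t : ℝ, 2 * ∑ b, ν i b * (f i b + t * e b) =
          2 * ∑ b, ν i b * f i b + t * (2 * ∑ b, ν i b * e b) := by
        intro t
        have : ∀ b, ν i b * (f i b + t * e b) = ν i b * f i b + t * (ν i b * e b) :=
          fun b => by ring
        rw [sum_congr rfl fun b _ => this b, sum_add_distrib, ← mul_sum]
        ring
      simp_rw [e2]
      have h1 := ((hasDerivAt_id (0 : ℝ)).mul_const (2 * ∑ b, ν i b * e b)).const_add
        (2 * ∑ b, ν i b * f i b)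
      exact h1.congr_deriv (by simp)
    have hd3 := hd.sub hd2
    have hm0 : IsLocalMin ((fun t : ℝ => ZZ (x i) (ν i) (fun b => f i b + t * e b) (l + t * 0)) -
        (fun t : ℝ => 2 * ∑ b, ν i b * (f i b + t * e b))) 0 := by
      refine Filter.Eventually.of_forall fun t => ?_
      have := hblock i (fun b => f i b + t * e b)
      simpa using this
    have h0 := hm0.hasDerivAt_eq_zero hd3
    have e1 : ∑ p, ∑ q, cpl (x i) (ν i) l (f i) p q * (0 * inner ℝ (x i p) (x i q) + e p + e q) =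
        2 * ∑ b, cpl (x i) (ν i) l (f i) a b := by
      have e2 : ∀ p q, cpl (x i) (ν i) l (f i) p q * (0 * inner ℝ (x i p) (x i q) + e p + e q) =
          (if p = a then cpl (x i) (ν i) l (f i) p q else 0) +
            (if q = a then cpl (x i) (ν i) l (f i) p q else 0) := by
        intro p q
        rw [he]
        simp only
        split_ifs <;> ring
      simp_rw [e2, sum_add_distrib]
      have e3 : ∑ p, ∑ q, (if p = a then cpl (x i) (ν i) l (f i) p q else 0) =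
          ∑ b, cpl (x i) (ν i) l (f i) a b := by
        rw [sum_comm]
        simp
      have e4 : ∑ p, ∑ q, (if q = a then cpl (x i) (ν i) l (f i) p q else 0) =
          ∑ b, cpl (x i) (ν i) l (f i) a b := by
        simp only [sum_ite_eq', mem_univ, if_true]
        exact sum_congr rfl fun b _ => hsym i b a
      rw [e3, e4]
      ring
    have e5 : ∑ b, ν i b * e b = ν i a := by rw [he]; simp
    rw [e1, e5] at h0
    linarith
  have hmarg' : ∀ i b, ∑ a, cpl (x i) (ν i) l (f i) a b = ν i b := by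
    intro i b
    rw [← hmarg i b]
    exact sum_congr rfl fun a _ => hsym i a b
  -- the direction of `l`
  obtain ⟨E, hE⟩ : ∃ E, E = ∑ i, ∑ a, ∑ b, cpl (x i) (ν i) l (f i) a b *
    inner ℝ (x i a) (x i b) := ⟨_, rfl⟩
  have hd : HasDerivAt (fun t : ℝ => Phi x ν s f (l + t)) (E - s * vB x ν) 0 := by
    have d1 : ∀ i, HasDerivAt (fun t : ℝ => ZZ (x i) (ν i) (f i) (l + t) -
        2 * ∑ a, ν i a * f i a) (∑ a, ∑ b, cpl (x i) (ν i) l (f i) a b *
          inner ℝ (x i a) (x i b)) 0 := by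
      intro i
      have h1 := (deriv_ZZ (x i) (ν i) (f i) (fun _ => 0) l 1).sub_const (2 * ∑ a, ν i a * f i a)
      simpa using h1
    have d2 := HasDerivAt.fun_sum (u := univ) fun i _ => d1 i
    have d3 : HasDerivAt (fun t : ℝ => (l + t) * (s * vB x ν)) (s * vB x ν) 0 := by
      have h1 := ((hasDerivAt_id (0 : ℝ)).const_add l).mul_const (s * vB x ν)
      exact h1.congr_deriv (by simp)
    have d4 := d2.sub d3
    rw [← hE] at d4
    exact d4
  have hEs : s * vB x ν ≤ E := by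
    have h1 := hd.tendsto_slope_zero_right
    have h2 : 0 ≤ E - s * vB x ν := by
      refine ge_of_tendsto h1 (eventually_nhdsWithin_of_forall fun t ht => ?_)
      have ht' : 0 < t := ht
      rw [smul_eq_mul]
      refine mul_nonneg (inv_pos.2 ht').le (sub_nonneg.2 ?_)
      have := hmin f (l + (0 + t)) (by linarith)
      simpa using this
    linarith
  have hlE : l * E = l * (s * vB x ν) := by
    rcases hl.eq_or_lt with h0 | h0
    · rw [← h0]; ring
    · have hm0 : IsLocalMin (fun t : ℝ => Phi x ν s f (l + t)) 0 := by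
        have h1 : ∀ᶠ t : ℝ in 𝓝 0, -l < t := lt_mem_nhds (by linarith)
        filter_upwards [h1] with t ht
        have := hmin f (l + t) (by linarith)
        simpa using this
      have h2 := hm0.hasDerivAt_eq_zero hd
      rw [show E = s * vB x ν by linarith]
  -- the value of the functional
  have hZ : ∀ i, ZZ (x i) (ν i) (f i) l = 1 := by
    intro i
    unfold ZZ
    rw [sum_congr rfl fun a _ => hmarg i a, hsum]
  have hPhi : Phi x ν s f l = (Fintype.card ι : ℝ) - 2 * (∑ i, ∑ a, ν i a * f i a) -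
      l * (s * vB x ν) := by
    unfold Phi
    simp_rw [hZ]
    rw [sum_sub_distrib, sum_const, card_univ, nsmul_eq_mul, mul_one, ← mul_sum]
  refine ⟨l, f, hl, hmarg, ?_, ?_, ?_⟩
  · rw [← hE]
    exact hEs
  · have e1 : ∀ i, ∑ a, ∑ b, cpl (x i) (ν i) l (f i) a b *
        (l * inner ℝ (x i a) (x i b) + f i a + f i b) =
        l * (∑ a, ∑ b, cpl (x i) (ν i) l (f i) a b * inner ℝ (x i a) (x i b)) +
          2 * ∑ a, ν i a * f i a := by
      intro i
      have e2 : ∀ a b, cpl (x i) (ν i) l (f i) a b *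
          (l * inner ℝ (x i a) (x i b) + f i a + f i b) =
          l * (cpl (x i) (ν i) l (f i) a b * inner ℝ (x i a) (x i b)) +
            cpl (x i) (ν i) l (f i) a b * f i a + cpl (x i) (ν i) l (f i) a b * f i b :=
        fun a b => by ring
      simp_rw [e2, sum_add_distrib, ← mul_sum]
      have e3 : ∑ a, ∑ b, cpl (x i) (ν i) l (f i) a b * f i a = ∑ a, ν i a * f i a :=
        sum_congr rfl fun a _ => by rw [← sum_mul, hmarg]
      have e4 : ∑ a, ∑ b, cpl (x i) (ν i) l (f i) a b * f i b = ∑ a, ν i a * f i a := by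
        rw [sum_comm]
        exact sum_congr rfl fun b _ => by rw [← sum_mul, hmarg']
      rw [e3, e4]
      ring
    simp_rw [e1]
    rw [sum_add_distrib, ← mul_sum, ← mul_sum, ← hE, hlE]
    have e6 := Phi_ge x ν h hν hsum s hl hs0 hs1 f
    rw [hPhi] at e6
    simp only [sub_self, zero_mul, mul_zero, add_zero] at e6
    linarith
  · intro t ht0 ht1
    have e6 := Phi_ge x ν h hν hsum s hl (hs0.trans ht0.le) ht1 f
    have e7 := hmin (fun _ _ => 0) 0 le_rfl
    rw [Phi_zero x ν hsum s] at e7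
    linarith

end Pool.Agent.P8H53.KC
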